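import Pool.Agent.DIF.Stmts
import Pool.Agent.Helper54_FLX.Asm
import Pool.Agent.Helper82_Vir.TwoCrit

/-!
# ASD: assembly
-/

set_option autoImplicit false

open scoped InnerProductSpace Topology ContDiff Manifold
open MeasureTheory Filter Set

noncomputable section

namespace Pool.Agent.DIF.H88

open Pool.Agent.Helper42_Paneitz Pool.Agent.Helper82_Vir Pool.Agent.FLX Pool.Agent.DIF

theorem isPaneitz_const {c : ℝ} (hc : 0 < c) : IsPaneitzCurvature (fun _ => c) := by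
  refine ⟨contMDiff_const, fun _ => Real.log (6 / c) / 4, contMDiff_const, fun x => ?_⟩
  rw [paneitz_const]
  have e : 4 * (Real.log (6 / c) / 4) = Real.log (6 / c) := by ring
  rw [e, Real.exp_log (by positivity)]
  field_simp
  norm_num

theorem dif_phi (hsmo : SmoStmt) (hdmb : DmbStmt) (hdpr : DprStmt) (hdrs : DrsStmt) {p q n : E5}
    (hp : ‖p‖ = 1) (hq : ‖q‖ = 1) (hpq : ⟪p, q⟫_ℝ = 0) (hpn : ⟪p, n⟫_ℝ = 0) (hqn : ⟪q, n⟫_ℝ = 0)
    (k : ℕ) : Dif (phi p q n k) := by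
  have hb : ‖(9 / 10 : ℝ) • p‖ < 1 := by
    rw [norm_smul, hp, mul_one]; norm_num
  have hb' : ‖-((9 / 10 : ℝ) • p)‖ < 1 := by rw [norm_neg]; exact hb
  obtain ⟨-, -, hcomp, -⟩ := hsmo
  have h1 : Dif (rsh p q n (k : ℝ)) := (hdrs p q n k hp hq hpq hpn hqn).1
  have h2 : Dif (fun x => mob (-((9 / 10 : ℝ) • p)) (rsh p q n (k : ℝ) x)) :=
    hcomp (mob (-((9 / 10 : ℝ) • p))) (rsh p q n (k : ℝ)) (hdmb _ hb') h1
  have h3 : Dif (fun x => prj p ((k : ℝ) + 1)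
      (mob (-((9 / 10 : ℝ) • p)) (rsh p q n (k : ℝ) x))) :=
    hcomp (prj p ((k : ℝ) + 1)) (fun x => mob (-((9 / 10 : ℝ) • p)) (rsh p q n (k : ℝ) x))
      (hdpr p ((k : ℝ) + 1) hp (by positivity)).1 h2
  have h4 := hcomp (mob ((9 / 10 : ℝ) • p)) (fun x => prj p ((k : ℝ) + 1)
      (mob (-((9 / 10 : ℝ) • p)) (rsh p q n (k : ℝ) x))) (hdmb _ hb) h3
  have e : phi p q n k = fun x => mob ((9 / 10 : ℝ) • p) (prj p ((k : ℝ) + 1)
      (mob (-((9 / 10 : ℝ) • p)) (rsh p q n (k : ℝ) x))) := by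
    funext x
    unfold phi
    rfl
  rw [e]
  exact h4

theorem asd (hgen : GenStmt) (hsmo : SmoStmt) (hdmb : DmbStmt) (hdpr : DprStmt) (hdrs : DrsStmt)
    (hltw : LtwStmt) (hpts : PtsStmt) (hmid : MidStmt) (hfin : FinStmt) : AsdStmt := by
  intro Q hQ hpos
  have hQc := continuous_of_sm hQ
  by_cases hcon : ∃ x y, Q x ≠ Q y
  swap
  · push Not at hcon
    obtain ⟨x₀, hx₀⟩ := hpos
    refine ⟨id, hsmo.2.1 id id contMDiff_id contMDiff_id (fun _ => rfl) (fun _ => rfl), ?_⟩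
    have h : (fun x => Q (id x)) = fun _ => Q x₀ := by
      funext x; exact hcon x x₀
    rw [h]
    exact isPaneitz_const hx₀
  have hp : ‖ee 0‖ = 1 := norm_ee 0
  have hq : ‖ee 1‖ = 1 := norm_ee 1
  have hn : ‖ee 2‖ = 1 := norm_ee 2
  have hpq : ⟪ee 0, ee 1⟫_ℝ = 0 := inner_ee_ee (by decide)
  have hpn : ⟪ee 0, ee 2⟫_ℝ = 0 := inner_ee_ee (by decide)
  have hqn : ⟪ee 1, ee 2⟫_ℝ = 0 := inner_ee_ee (by decide)
  obtain ⟨e₀, c₁, he₀, hc₁, H⟩ := hgen (ee 0) (ee 2) hp hn hpn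
  obtain ⟨P₁, P₂, e, he, hee, hP2, hval, hne⟩ := hpts Q e₀ hQc hpos hcon he₀
  set P : S4 := pt 0 with hP
  set N : S4 := ⟨-ee 0, by rw [mem_sphere_zero_iff_norm, norm_neg]; exact hp⟩ with hN
  obtain ⟨φ₁, hφ₁, hφP, hφN⟩ := hmid P N P₁ P₂ rfl hne
  have hsQ1 : Sm (fun x => Q (φ₁ x)) := hsmo.2.2.2 Q φ₁ hQ hφ₁
  set c : ℝ := 6 / Q P₂ with hc
  have hc0 : 0 < c := by positivity
  set Q' : S4 → ℝ := fun x => c * Q (φ₁ x) with hQ'
  have hQ's : Sm Q' := hsQ1.smul c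
  have hQ'c := continuous_of_sm hQ's
  have hQP : Q' P = 6 + e := by
    show c * Q (φ₁ P) = 6 + e
    rw [hφP, hval, hc]
    field_simp
  have hQN : Q' N = 6 := by
    show c * Q (φ₁ N) = 6
    rw [hφN, hc]
    field_simp
  have hlim := hltw (ee 0) (ee 1) (ee 2) hp hq hn hpq hpn hqn P N rfl rfl Q' hQ'c
  have hev := hlim.eventually (gt_mem_nhds (show 0 < c₁ * e by positivity))
  obtain ⟨k, hk⟩ := hev.exists
  have hdk := dif_phi hsmo hdmb hdpr hdrs hp hq hpq hpn hqn k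
  have hd : Dif (fun x => φ₁ (phi (ee 0) (ee 1) (ee 2) k x)) := hsmo.2.2.1 _ _ hφ₁ hdk
  have hsQ2 : Sm (fun x => Q (φ₁ (phi (ee 0) (ee 1) (ee 2) k x))) := hsmo.2.2.2 Q _ hQ hd
  have hsQ3 : Sm (fun x => Q' (phi (ee 0) (ee 1) (ee 2) k x)) := hsQ2.smul c
  refine ⟨_, hd, ?_⟩
  refine Pool.Agent.FLX.H54.scale hsQ2 hc0 ?_
  have hq0 : Continuous fun x => Q' (phi (ee 0) (ee 1) (ee 2) k x) - 6 :=
    (continuous_of_sm hsQ3).sub continuous_const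
  obtain ⟨w, hw⟩ := H e (fun x => Q' (phi (ee 0) (ee 1) (ee 2) k x) - 6) he hee hq0 (by
    refine le_trans (le_of_eq ?_) hk.le
    congr 1
    funext x
    rw [hQP, hQN]
    ring)
  refine hfin _ w hsQ3 ?_
  have h6 : (fun x => 6 + (Q' (phi (ee 0) (ee 1) (ee 2) k x) - 6)) =
      fun x => Q' (phi (ee 0) (ee 1) (ee 2) k x) := by funext x; ring
  rw [h6] at hw
  exact hw

end Pool.Agent.DIF.H88
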