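import Pool.Agent.Helper88_DIF.Gap

/-!
# GEN: functions near `6 + e ind`
-/

set_option autoImplicit false

open scoped InnerProductSpace Topology ContDiff Manifold
open MeasureTheory Filter Set

noncomputable section

namespace Pool.Agent.DIF.H88

open Pool.Agent.Helper42_Paneitz Pool.Agent.Helper82_Vir Pool.Agent.FLX Pool.Agent.DIF

theorem isub {f g : S4 → ℝ} (hf : Integrable f sig) (hg : Integrable g sig) :
    Integrable (fun y => f y - g y) sig := hf.sub hg

theorem iadd {f g : S4 → ℝ} (hf : Integrable f sig) (hg : Integrable g sig) :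
    Integrable (fun y => f y + g y) sig := hf.add hg

theorem N2_nn (f : S4 → ℝ) : 0 ≤ N2 f := Real.sqrt_nonneg _

theorem N2_sq' (f : S4 → ℝ) : N2 f ^ 2 = ∫ y, f y ^ 2 ∂sig :=
  Real.sq_sqrt (integral_nonneg fun _ => sq_nonneg _)

/-- `∫ |r| ≤ √msig N2 r` -/
theorem int_abs_le {r : S4 → ℝ} (h1 : Integrable r sig) (h2 : Integrable (fun y => r y ^ 2) sig) :
    ∫ y, |r y| ∂sig ≤ √msig * N2 r := by
  have hm := msig_pos
  set I : ℝ := ∫ y, |r y| ∂sig with hI
  have hI0 : 0 ≤ I := integral_nonneg fun _ => abs_nonneg _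
  have h3 : 0 ≤ ∫ y, (|r y| - I / msig) ^ 2 ∂sig := integral_nonneg fun _ => sq_nonneg _
  have e : ∀ y, (|r y| - I / msig) ^ 2 = (r y ^ 2 - 2 * (I / msig) * |r y|) + (I / msig) ^ 2 := by
    intro y
    rw [← sq_abs (r y)]; ring
  simp only [e] at h3
  have k1 : Integrable (fun y => 2 * (I / msig) * |r y|) sig := h1.abs.const_mul _
  rw [integral_add (isub h2 k1) (integrable_const _),
    integral_sub h2 k1, integral_const_mul, integral_const_sig] at h3
  rw [← hI, ← N2_sq'] at h3
  have h4 : I ^ 2 ≤ msig * N2 r ^ 2 := by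
    have h5 : N2 r ^ 2 - 2 * (I / msig) * I + msig * (I / msig) ^ 2 = N2 r ^ 2 - I ^ 2 / msig := by
      field_simp
      ring
    rw [h5] at h3
    have h6 : I ^ 2 / msig ≤ N2 r ^ 2 := by linarith
    rw [div_le_iff₀ hm] at h6
    linarith
  have h5 : (√msig * N2 r) ^ 2 = msig * N2 r ^ 2 := by rw [mul_pow, Real.sq_sqrt hm.le]
  rw [← h5] at h4
  exact (sq_le_sq₀ hI0 (mul_nonneg (Real.sqrt_nonneg _) (N2_nn r))).1 h4

theorem norm_int_smul_le {r : S4 → ℝ} :
    ‖∫ y : S4, r y • (y : E5) ∂sig‖ ≤ ∫ y, |r y| ∂sig := by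
  refine (norm_integral_le_integral_norm _).trans (le_of_eq ?_)
  congr 1
  funext y
  rw [norm_smul, S4_norm, mul_one, Real.norm_eq_abs]

theorem norm_Mg_le {r : S4 → ℝ} (h1 : Integrable r sig) (b : E5) :
    ‖Mg r b‖ ≤ 6 * (∫ y, |r y| ∂sig) * ‖b‖ := by
  unfold Mg
  have e1 : ‖(5 : ℝ) • (∫ y : S4, (r y * ⟪b, (y : E5)⟫_ℝ) • (y : E5) ∂sig)‖ ≤
      5 * ((∫ y, |r y| ∂sig) * ‖b‖) := by
    rw [norm_smul]
    have h5 : ‖(5 : ℝ)‖ = 5 := by norm_num
    rw [h5]
    refine mul_le_mul_of_nonneg_left (norm_int_smul_le.trans ?_) (by norm_num)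
    rw [← integral_mul_const]
    refine integral_mono_of_nonneg (Eventually.of_forall fun y => abs_nonneg _)
      (h1.abs.mul_const _) (Eventually.of_forall fun y => ?_)
    show |r y * ⟪b, (y : E5)⟫_ℝ| ≤ |r y| * ‖b‖
    rw [abs_mul]
    refine mul_le_mul_of_nonneg_left ?_ (abs_nonneg _)
    have := abs_real_inner_le_norm b (y : E5)
    rwa [S4_norm, mul_one] at this
  have e2 : ‖(∫ y : S4, r y ∂sig) • b‖ ≤ (∫ y, |r y| ∂sig) * ‖b‖ := by
    rw [norm_smul, Real.norm_eq_abs]
    exact mul_le_mul_of_nonneg_right abs_integral_le_integral_abs (norm_nonneg _)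
  refine (norm_sub_le _ _).trans ?_
  linarith

theorem integrable_inner {r : S4 → ℝ} (h1 : Integrable r sig) (b : E5) :
    Integrable (fun y : S4 => r y * ⟪b, (y : E5)⟫_ℝ) sig := by
  refine h1.mul_bdd (c := ‖b‖) (cin b).aestronglyMeasurable (Eventually.of_forall fun y => ?_)
  rw [Real.norm_eq_abs]
  have := abs_real_inner_le_norm b (y : E5)
  rwa [S4_norm, mul_one] at this

theorem gen (hcrg : CrgStmt) (hgap : GapStmt) : GenStmt := by
  intro p n hp hn hpn
  obtain ⟨-, hmom, κ, hκ, hκb⟩ := hgap p n hp hn hpn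
  have hm := msig_pos
  have hs : 0 < √msig := Real.sqrt_pos.2 hm
  set C : ℝ := 1 + √msig with hC
  have hC0 : 0 < C := by positivity
  obtain ⟨e₀, c₀, he₀, hc₀, H⟩ := hcrg (κ / (2 * C)) (by positivity)
  set c₁ : ℝ := min 1 (min (c₀ * C / √msig) (κ / (12 * √msig))) with hc₁
  have hc₁p : 0 < c₁ := lt_min one_pos (lt_min (by positivity) (by positivity))
  refine ⟨e₀ / C, c₁, by positivity, hc₁p, ?_⟩
  intro e q he hee hq hN
  have c1 : c₁ ≤ 1 := min_le_left _ _
  have c2 : √msig * c₁ ≤ c₀ * C := by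
    have : c₁ ≤ c₀ * C / √msig := (min_le_right _ _).trans (min_le_left _ _)
    rw [le_div_iff₀ hs] at this
    linarith
  have c3 : 6 * (√msig * c₁) ≤ κ / 2 := by
    have : c₁ ≤ κ / (12 * √msig) := (min_le_right _ _).trans (min_le_right _ _)
    rw [le_div_iff₀ (by positivity)] at this
    linarith
  have hCe : C * e ≤ e₀ := by
    rw [le_div_iff₀ hC0] at hee
    linarith
  set r : S4 → ℝ := fun y => q y - e * ind p n y with hr
  have hi := integrable_ind p n
  have iq := integrable_cont hq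
  have ir : Integrable r sig := iq.sub (hi.const_mul e)
  obtain ⟨B, hB0, hB⟩ := exists_bound hq
  have hrm : AEStronglyMeasurable r sig := ir.aestronglyMeasurable
  have ir2 : Integrable (fun y => r y ^ 2) sig := by
    have e1 : (fun y => r y ^ 2) = fun y => r y * r y := by funext y; ring
    rw [e1]
    refine ir.mul_bdd (c := B + e) hrm (Eventually.of_forall fun y => ?_)
    rw [Real.norm_eq_abs]
    show |q y - e * ind p n y| ≤ B + e
    refine (abs_sub _ _).trans ?_
    have h1 := hB y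
    have h2 : |e * ind p n y| ≤ e := by
      rw [abs_mul, abs_of_pos he, abs_of_nonneg (ind_nonneg p n y)]
      nlinarith [ind_le_one p n y]
    linarith
  have hI := int_abs_le ir ir2
  have hN0 := N2_nn r
  have hI0 : 0 ≤ ∫ y, |r y| ∂sig := integral_nonneg fun _ => abs_nonneg _
  have hI2 : ∫ y, |r y| ∂sig ≤ √msig * (c₁ * e) :=
    hI.trans (mul_le_mul_of_nonneg_left hN hs.le)
  have hqr : ∀ y, q y = r y + e * ind p n y := fun y => by simp [hr]
  -- the L² norm
  have hNq : N2 q ≤ C * e := by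
    have h1 : N2 q ^ 2 ≤ (N2 r + e * √msig) ^ 2 := by
      have h2 : ∫ y, q y ^ 2 ∂sig ≤ ∫ y, ((r y ^ 2 + 2 * e * |r y|) + e ^ 2) ∂sig := by
        refine integral_mono (integrable_cont (hq.pow 2)) ((ir2.add (ir.abs.const_mul _)).add
          (integrable_const _)) fun y => ?_
        show q y ^ 2 ≤ (r y ^ 2 + 2 * e * |r y|) + e ^ 2
        rw [hqr y]
        have a1 := ind_nonneg p n y
        have a2 := ind_le_one p n y
        have a3 : r y * ind p n y ≤ |r y| := by
          have := le_abs_self (r y)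
          have := abs_nonneg (r y)
          nlinarith
        have a4 : ind p n y ^ 2 ≤ 1 := by nlinarith
        nlinarith [mul_le_mul_of_nonneg_left a3 he.le, mul_le_mul_of_nonneg_left a4 (sq_nonneg e)]
      have k1 : Integrable (fun y => 2 * e * |r y|) sig := ir.abs.const_mul _
      rw [integral_add (iadd ir2 k1) (integrable_const _),
        integral_add ir2 k1, integral_const_mul, integral_const_sig,
        ← N2_sq' r, ← N2_sq' q] at h2
      have h3 : √msig ^ 2 = msig := Real.sq_sqrt hm.le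
      nlinarith [mul_le_mul_of_nonneg_left hI he.le]
    have h2 : N2 q ≤ N2 r + e * √msig :=
      (sq_le_sq₀ (N2_nn q) (by positivity)).1 h1
    have h3 : c₁ * e ≤ 1 * e := mul_le_mul_of_nonneg_right c1 he.le
    have h4 : N2 r ≤ c₁ * e := hN
    have h5 : C * e = e + e * √msig := by rw [hC]; ring
    rw [h5]
    linarith
  refine H (C * e) q (by positivity) hCe hq hNq ?_ fun b => ?_
  · have e1 : ∫ y : S4, q y • (y : E5) ∂sig = ∫ y : S4, r y • (y : E5) ∂sig := by
      have h1 : ∀ y : S4, q y • (y : E5) = r y • (y : E5) + e • (ind p n y • (y : E5)) := by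
        intro y; rw [hqr y, add_smul, mul_smul]
      simp only [h1]
      have j1 : Integrable (fun y : S4 => e • (ind p n y • (y : E5))) sig :=
        (integrable_smul_coe hi).smul e
      rw [integral_add (integrable_smul_coe ir) j1, integral_smul, hmom, smul_zero, add_zero]
    rw [e1]
    refine norm_int_smul_le.trans (hI2.trans ?_)
    calc √msig * (c₁ * e) = (√msig * c₁) * e := by ring
      _ ≤ (c₀ * C) * e := mul_le_mul_of_nonneg_right c2 he.le
      _ = c₀ * (C * e) := by ring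
  · have e1 : Mg q b = Mg r b + e • Mg (ind p n) b := by
      unfold Mg
      have h1 : ∀ y : S4, (q y * ⟪b, (y : E5)⟫_ℝ) • (y : E5) = (r y * ⟪b, (y : E5)⟫_ℝ) • (y : E5) +
          e • ((ind p n y * ⟪b, (y : E5)⟫_ℝ) • (y : E5)) := by
        intro y; rw [hqr y, add_mul, add_smul, mul_assoc, mul_smul e]
      have h2 : ∫ y : S4, q y ∂sig = ∫ y : S4, r y ∂sig + e * ∫ y : S4, ind p n y ∂sig := by
        rw [← integral_const_mul, ← integral_add ir (hi.const_mul e)]
        exact integral_congr_ae (Eventually.of_forall hqr)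
      have j1 : Integrable (fun y : S4 => e • ((ind p n y * ⟪b, (y : E5)⟫_ℝ) • (y : E5))) sig :=
        (integrable_smul_coe (integrable_inner hi b)).smul e
      simp only [h1]
      rw [integral_add (integrable_smul_coe (integrable_inner ir b)) j1, integral_smul, h2]
      module
    have h1 := norm_Mg_le ir b
    have h2 := hκb b
    have h3 : ‖Mg r b‖ ≤ κ / 2 * e * ‖b‖ := by
      refine h1.trans ?_
      have h4 : 6 * (∫ y, |r y| ∂sig) ≤ κ / 2 * e := by
        calc 6 * (∫ y, |r y| ∂sig) ≤ 6 * (√msig * (c₁ * e)) := by linarith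
          _ = (6 * (√msig * c₁)) * e := by ring
          _ ≤ κ / 2 * e := mul_le_mul_of_nonneg_right c3 he.le
      exact mul_le_mul_of_nonneg_right h4 (norm_nonneg _)
    have h4 : ‖e • Mg (ind p n) b‖ = e * ‖Mg (ind p n) b‖ := by
      rw [norm_smul, Real.norm_of_nonneg he.le]
    have h5 : ‖e • Mg (ind p n) b‖ ≤ ‖Mg q b‖ + ‖Mg r b‖ := by
      have : e • Mg (ind p n) b = Mg q b - Mg r b := by rw [e1]; abel
      rw [this]
      exact norm_sub_le _ _
    rw [h4] at h5
    have h6 : κ / (2 * C) * (C * e) * ‖b‖ = κ / 2 * e * ‖b‖ := by field_simp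
    rw [h6]
    have h7 := mul_le_mul_of_nonneg_left h2 he.le
    linarith

end Pool.Agent.DIF.H88
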