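import Pool.Agent.Helper88_DIF.Asd
import Pool.Agent.Helper88_DIF.Gen

/-!
# ASD, stable form
-/

set_option autoImplicit false

open scoped InnerProductSpace Topology ContDiff Manifold
open MeasureTheory Filter Set

noncomputable section

namespace Pool.Agent.DIF.H88

open Pool.Agent.Helper42_Paneitz Pool.Agent.Helper82_Vir Pool.Agent.FLX Pool.Agent.DIF

theorem N2_add_bdd {r g : S4 → ℝ} {B : ℝ} (h1 : Integrable r sig)
    (h2 : Integrable (fun y => r y ^ 2) sig) (_hg : Continuous g) (hB : ∀ y, |g y| ≤ B)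
    (hB0 : 0 ≤ B) (h3 : Integrable (fun y => (r y + g y) ^ 2) sig) :
    N2 (fun y => r y + g y) ≤ N2 r + B * √msig := by
  have hm := msig_pos
  have hs : 0 < √msig := Real.sqrt_pos.2 hm
  have hI := int_abs_le h1 h2
  have hN0 := N2_nn r
  have k1 : Integrable (fun y => 2 * B * |r y|) sig := h1.abs.const_mul _
  have h4 : N2 (fun y => r y + g y) ^ 2 ≤ (N2 r + B * √msig) ^ 2 := by
    have h5 : ∫ y, (r y + g y) ^ 2 ∂sig ≤ ∫ y, ((r y ^ 2 + 2 * B * |r y|) + B ^ 2) ∂sig := by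
      refine integral_mono h3 ((iadd h2 k1).add (integrable_const _)) fun y => ?_
      show (r y + g y) ^ 2 ≤ (r y ^ 2 + 2 * B * |r y|) + B ^ 2
      have a1 := hB y
      have a2 : r y * g y ≤ |r y| * B := by
        calc r y * g y ≤ |r y * g y| := le_abs_self _
          _ = |r y| * |g y| := abs_mul _ _
          _ ≤ |r y| * B := mul_le_mul_of_nonneg_left a1 (abs_nonneg _)
      have a3 : g y ^ 2 ≤ B ^ 2 := by
        rw [← sq_abs]; exact pow_le_pow_left₀ (abs_nonneg _) a1 2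
      nlinarith
    rw [integral_add (iadd h2 k1) (integrable_const _),
      integral_add h2 k1, integral_const_mul, integral_const_sig,
      ← N2_sq' r, ← N2_sq' (fun y => r y + g y)] at h5
    have h6 : √msig ^ 2 = msig := Real.sq_sqrt hm.le
    nlinarith [mul_le_mul_of_nonneg_left hI hB0]
  exact (sq_le_sq₀ (N2_nn _) (by positivity)).1 h4

theorem asd2 (hgen : GenStmt) (hsmo : SmoStmt) (hdmb : DmbStmt) (hdpr : DprStmt) (hdrs : DrsStmt)
    (hltw : LtwStmt) (hpts : PtsStmt) (hmid : MidStmt) (hfin : FinStmt) (Q : S4 → ℝ) (hQ : Sm Q)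
    (hpos : ∃ x, 0 < Q x) (hcon : ∃ x y, Q x ≠ Q y) :
    ∃ φ : S4 → S4, Dif φ ∧ ∃ δ : ℝ, 0 < δ ∧ ∀ Q₂ : S4 → ℝ, Sm Q₂ → (∀ x, |Q₂ x - Q x| ≤ δ) →
      IsPaneitzCurvature (fun x => Q₂ (φ x)) := by
  have hQc := continuous_of_sm hQ
  have hp : ‖ee 0‖ = 1 := norm_ee 0
  have hq : ‖ee 1‖ = 1 := norm_ee 1
  have hn : ‖ee 2‖ = 1 := norm_ee 2
  have hpq : ⟪ee 0, ee 1⟫_ℝ = 0 := inner_ee_ee (by decide)
  have hpn : ⟪ee 0, ee 2⟫_ℝ = 0 := inner_ee_ee (by decide)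
  have hqn : ⟪ee 1, ee 2⟫_ℝ = 0 := inner_ee_ee (by decide)
  obtain ⟨e₀, c₁, he₀, hc₁, H⟩ := hgen (ee 0) (ee 2) hp hn hpn
  obtain ⟨P₁, P₂, e, he, hee, hP2, hval, hne⟩ := hpts Q e₀ hQc hpos hcon he₀
  set P : S4 := pt 0 with hP
  set N : S4 := ⟨-ee 0, by rw [mem_sphere_zero_iff_norm, norm_neg]; exact hp⟩ with hN
  obtain ⟨φ₁, hφ₁, hφP, hφN⟩ := hmid P N P₁ P₂ rfl hne
  have hsQ1 : Sm (fun x => Q (φ₁ x)) := hsmo.2.2.2 Q φ₁ hQ hφ₁
  set c : ℝ := 6 / Q P₂ with hc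
  have hc0 : 0 < c := by positivity
  set Q' : S4 → ℝ := fun x => c * Q (φ₁ x) with hQ'
  have hQ's : Sm Q' := hsQ1.smul c
  have hQ'c := continuous_of_sm hQ's
  have hQP : Q' P = 6 + e := by
    show c * Q (φ₁ P) = 6 + e
    rw [hφP, hval, hc]
    field_simp
  have hQN : Q' N = 6 := by
    show c * Q (φ₁ N) = 6
    rw [hφN, hc]
    field_simp
  have hlim := hltw (ee 0) (ee 1) (ee 2) hp hq hn hpq hpn hqn P N rfl rfl Q' hQ'c
  have hev := hlim.eventually (gt_mem_nhds (show 0 < c₁ * e / 2 by positivity))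
  obtain ⟨k, hk⟩ := hev.exists
  have hdk := dif_phi hsmo hdmb hdpr hdrs hp hq hpq hpn hqn k
  have hd : Dif (fun x => φ₁ (phi (ee 0) (ee 1) (ee 2) k x)) := hsmo.2.2.1 _ _ hφ₁ hdk
  have hm := msig_pos
  have hs : 0 < √msig := Real.sqrt_pos.2 hm
  refine ⟨_, hd, c₁ * e / (2 * c * √msig), by positivity, fun Q₂ hQ₂ hnear => ?_⟩
  have hsQ2 : Sm (fun x => Q₂ (φ₁ (phi (ee 0) (ee 1) (ee 2) k x))) := hsmo.2.2.2 Q₂ _ hQ₂ hd
  have hsQ3 : Sm (fun x => c * Q₂ (φ₁ (phi (ee 0) (ee 1) (ee 2) k x))) := hsQ2.smul c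
  have hsQ4 : Sm (fun x => Q (φ₁ (phi (ee 0) (ee 1) (ee 2) k x))) := hsmo.2.2.2 Q _ hQ hd
  refine Pool.Agent.FLX.H54.scale hsQ2 hc0 ?_
  have hq0 : Continuous fun x => c * Q₂ (φ₁ (phi (ee 0) (ee 1) (ee 2) k x)) - 6 :=
    (continuous_of_sm hsQ3).sub continuous_const
  have hk' : N2 (fun x => c * Q (φ₁ (phi (ee 0) (ee 1) (ee 2) k x)) - 6 -
      e * ind (ee 0) (ee 2) x) < c₁ * e / 2 := by
    refine lt_of_le_of_lt (le_of_eq ?_) hk
    congr 1
    funext x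
    rw [hQP, hQN]
    ring
  have hc4 : Continuous fun x => c * Q (φ₁ (phi (ee 0) (ee 1) (ee 2) k x)) - 6 :=
    (continuous_const.mul (continuous_of_sm hsQ4)).sub continuous_const
  have sqi : ∀ f : S4 → ℝ, Continuous f →
      Integrable (fun y => (f y - e * ind (ee 0) (ee 2) y) ^ 2) sig := by
    intro f hf
    have i1 : Integrable (fun y => f y ^ 2) sig := integrable_cont (hf.pow 2)
    have i2 : Integrable (fun y => ind (ee 0) (ee 2) y * (e ^ 2 - 2 * e * f y)) sig :=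
      integrable_ind_mul _ _ (continuous_const.sub (continuous_const.mul hf))
    refine (iadd i1 i2).congr (Eventually.of_forall fun y => ?_)
    show f y ^ 2 + ind (ee 0) (ee 2) y * (e ^ 2 - 2 * e * f y) =
      (f y - e * ind (ee 0) (ee 2) y) ^ 2
    have h01 : ind (ee 0) (ee 2) y ^ 2 = ind (ee 0) (ee 2) y := by
      unfold ind; split_ifs <;> norm_num
    calc f y ^ 2 + ind (ee 0) (ee 2) y * (e ^ 2 - 2 * e * f y)
        = f y ^ 2 + ind (ee 0) (ee 2) y ^ 2 * e ^ 2 -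
          2 * e * f y * ind (ee 0) (ee 2) y := by rw [h01]; ring
      _ = (f y - e * ind (ee 0) (ee 2) y) ^ 2 := by ring
  have hN2 : N2 (fun x => (c * Q₂ (φ₁ (phi (ee 0) (ee 1) (ee 2) k x)) - 6) -
      e * ind (ee 0) (ee 2) x) ≤ c₁ * e := by
    have e1 : (fun x => (c * Q₂ (φ₁ (phi (ee 0) (ee 1) (ee 2) k x)) - 6) -
        e * ind (ee 0) (ee 2) x) = fun x =>
        (c * Q (φ₁ (phi (ee 0) (ee 1) (ee 2) k x)) - 6 - e * ind (ee 0) (ee 2) x) +
        c * (Q₂ (φ₁ (phi (ee 0) (ee 1) (ee 2) k x)) -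
          Q (φ₁ (phi (ee 0) (ee 1) (ee 2) k x))) := by
      funext x; ring
    have h5 := sqi _ hq0
    have e2 := fun x => congrFun e1 x
    simp only [e2] at h5
    rw [e1]
    refine (N2_add_bdd (B := c * (c₁ * e / (2 * c * √msig)))
      ((integrable_cont hc4).sub ((integrable_ind _ _).const_mul e)) (sqi _ hc4) ?_ (fun y => ?_)
      (by positivity) h5).trans ?_
    · exact continuous_const.mul ((continuous_of_sm hsQ2).sub (continuous_of_sm hsQ4))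
    · rw [abs_mul, abs_of_pos hc0]
      exact mul_le_mul_of_nonneg_left (hnear _) hc0.le
    · have e3 : c * (c₁ * e / (2 * c * √msig)) * √msig = c₁ * e / 2 := by
        field_simp
      rw [e3]
      exact (add_le_add hk'.le le_rfl).trans (le_of_eq (by ring))
  obtain ⟨w, hw⟩ := H e (fun x => c * Q₂ (φ₁ (phi (ee 0) (ee 1) (ee 2) k x)) - 6) he hee hq0 hN2
  refine hfin _ w hsQ3 ?_
  have h6 : (fun x => 6 + (c * Q₂ (φ₁ (phi (ee 0) (ee 1) (ee 2) k x)) - 6)) =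
      fun x => c * Q₂ (φ₁ (phi (ee 0) (ee 1) (ee 2) k x)) := by funext x; ring
  rw [h6] at hw
  exact hw

end Pool.Agent.DIF.H88
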