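import Pool.Agent.DIF.Stmts
import Pool.Agent.Helper82_Vir.TwoCrit

/-!
# PTS: two points with nearby values
-/

set_option autoImplicit false

open scoped InnerProductSpace Topology ContDiff Manifold
open MeasureTheory Filter Set

noncomputable section

namespace Pool.Agent.DIF.H88

open Pool.Agent.Helper42_Paneitz Pool.Agent.Helper82_Vir Pool.Agent.FLX Pool.Agent.DIF

theorem pts : PtsStmt := by
  intro Q e₀ hQ hpos hne he₀
  obtain ⟨x₀, hx₀⟩ := hpos
  obtain ⟨P₁, -, hP₁⟩ := (isCompact_univ (X := S4)).exists_isMaxOn ⟨x₀, trivial⟩ hQ.continuousOn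
  have hmax : ∀ y, Q y ≤ Q P₁ := fun y => hP₁ (mem_univ y)
  set M : ℝ := Q P₁ with hM
  have hM0 : 0 < M := hx₀.trans_le (hmax x₀)
  obtain ⟨y, hy⟩ : ∃ y, Q y < M := by
    by_contra hcon
    push Not at hcon
    obtain ⟨a, b, hab⟩ := hne
    exact hab ((le_antisymm (hmax a) (hcon a)).trans (le_antisymm (hmax b) (hcon b)).symm)
  set v : ℝ := max (Q y) 0 with hv
  have hvM : v < M := max_lt hy hM0
  have hv0 : 0 ≤ v := le_max_right _ _
  have hvy : Q y ≤ v := le_max_left _ _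
  set c : ℝ := max ((v + M) / 2) (M / (1 + e₀ / 6)) with hc
  have h1 : (v + M) / 2 ≤ c := le_max_left _ _
  have h2 : M / (1 + e₀ / 6) ≤ c := le_max_right _ _
  have hd : 0 < 1 + e₀ / 6 := by positivity
  have hcM : c < M := by
    refine max_lt (by linarith) ?_
    rw [div_lt_iff₀ hd]
    nlinarith
  have hc0 : 0 < c := by linarith
  have hcy : Q y ≤ c := by linarith
  have := preconn_S4
  obtain ⟨P₂, hP₂⟩ := intermediate_value_univ y P₁ hQ ⟨hcy, hcM.le⟩
  have hmc : 1 < M / c := by rw [lt_div_iff₀ hc0]; linarith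
  refine ⟨P₁, P₂, 6 * (M / c - 1), by linarith, ?_, by rw [hP₂]; exact hc0, ?_, ?_⟩
  · have h3 : M / c ≤ 1 + e₀ / 6 := by
      rw [div_le_iff₀ hc0]
      rw [div_le_iff₀ hd] at h2
      linarith
    linarith
  · rw [hP₂]
    have : 1 + 6 * (M / c - 1) / 6 = M / c := by ring
    rw [this, div_mul_cancel₀ _ hc0.ne']
  · intro h
    rw [← h] at hP₂
    exact absurd hP₂ hcM.ne'

end Pool.Agent.DIF.H88
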