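import Pool.Agent.Helper82_FLX.Vol
import Pool.Agent.Helper82_FLX.Pow
import Pool.Agent.Helper82_FLX.Rep
import Pool.Agent.Helper83_FLX.Ker
import Pool.Agent.Helper32_FLX.Rea
import Pool.Agent.Helper77_FLX.Reb
import Pool.Agent.Helper25_FLX.Rec
import Pool.Agent.Helper39_FLX.Reg
import Pool.Agent.Helper55_FLX.Sym
import Pool.Agent.Helper55_FLX.Xis
import Pool.Agent.Helper55_FLX.Mom
import Pool.Agent.Helper53_FLX.Slv
import Pool.Agent.Helper69_FLX.Fin
import Pool.Agent.Helper88_FLX.Nrm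
import Pool.Agent.Helper18_FLX.Moa
import Pool.Agent.Helper18_FLX.Mos
import Pool.Agent.Helper18_FLX.L2b
import Pool.Agent.Helper76_FLX.Moi
import Pool.Agent.Helper3_FLX.Nle
import Pool.Agent.Helper40_FLX.Fix
import Pool.Agent.Helper25_DIF.Exq
import Pool.Agent.Helper25_DIF.Smo
import Pool.Agent.Helper25_DIF.Drs
import Pool.Agent.Helper56_DIF.Crg
import Pool.Agent.Helper56_DIF.Lim
import Pool.Agent.Helper60_DIF.Dmb
import Pool.Agent.Helper60_DIF.Dpr
import Pool.Agent.Helper69_DIF.Ltw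
import Pool.Agent.Helper69_DIF.Mid
import Pool.Agent.Helper88_DIF.Gen
import Pool.Agent.Helper88_DIF.Pts
import Pool.Agent.Helper88_DIF.Asd
import Pool.Agent.Helper88_DIF.Asd2

/-!
# Prescribed Q-curvature on `S^4` up to diffeomorphisms: the theorem
-/

set_option autoImplicit false

open scoped InnerProductSpace Topology ContDiff Manifold
open MeasureTheory Filter Set

noncomputable section

namespace Pool.Agent.DIF.H88

open Pool.Agent.Helper42_Paneitz Pool.Agent.Helper82_Vir Pool.Agent.FLX Pool.Agent.DIF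

theorem t_pow : PowStmt := Pool.Agent.FLX.H82.pow Pool.Agent.FLX.H82.vol
theorem t_ker : KerStmt := Pool.Agent.FLX.H83.ker t_pow
theorem t_rea : ReaStmt := Pool.Agent.FLX.H32.rea t_pow t_ker
theorem t_reb : RebStmt := Pool.Agent.FLX.H77.reb t_ker t_rea
theorem t_rec : RecStmt := Pool.Agent.FLX.H25.rec_row t_rea t_reb
theorem t_reg : RegStmt := Pool.Agent.FLX.H39.reg t_rec
theorem t_sym : SymStmt := Pool.Agent.FLX.H55.sym t_ker t_rea
theorem t_rep : RepStmt := Pool.Agent.FLX.H82.rep t_ker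
theorem t_slv : SlvStmt := Pool.Agent.FLX.H53.slv t_rec t_sym t_rep
theorem t_fin : FinStmt := Pool.Agent.FLX.H69.fin t_reg t_slv
theorem t_xis : XisStmt := Pool.Agent.FLX.H55.xis t_sym t_rep
theorem t_moa : MoaStmt := Pool.Agent.FLX.H18.moa
theorem t_mos : MosStmt := Pool.Agent.FLX.H18.mos t_moa
theorem t_mom : MomStmt := Pool.Agent.FLX.H55.mom t_moa t_mos
theorem t_moi : MoiStmt := Pool.Agent.FLX.H76.moi t_moa t_mos t_mom t_ker
theorem t_l2b : L2bStmt := Pool.Agent.FLX.H18.l2b t_moa t_mom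
theorem t_nle : NleStmt := Pool.Agent.FLX.H3.nle
theorem t_fix : FixStmt := Pool.Agent.FLX.H40.fix t_ker t_rea Pool.Agent.FLX.H88.nrm t_nle
theorem t_exq : ExqStmt := Pool.Agent.DIF.H25.exq t_moa t_mos t_mom
theorem t_crg : CrgStmt :=
  Pool.Agent.DIF.H56.crg t_ker t_rea t_fix t_xis t_sym t_l2b t_mos t_moi t_nle t_exq
theorem t_gen : GenStmt := gen t_crg gap
theorem t_smo : SmoStmt := Pool.Agent.DIF.H25.smo
theorem t_dmb : DmbStmt := Pool.Agent.DIF.H60.dmb t_moa t_smo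
theorem t_dpr : DprStmt := Pool.Agent.DIF.H60.dpr t_smo
theorem t_drs : DrsStmt := Pool.Agent.DIF.H25.drs t_smo
theorem t_lim : LimStmt := Pool.Agent.DIF.H56.lim t_moa t_mos t_dpr t_drs
theorem t_ltw : LtwStmt := Pool.Agent.DIF.H69.ltw t_lim t_smo t_dmb t_dpr t_drs
theorem t_mid : MidStmt := Pool.Agent.DIF.H69M.mid t_moa t_smo t_dmb

theorem t_asd : AsdStmt := asd t_gen t_smo t_dmb t_dpr t_drs t_ltw pts t_mid t_fin

theorem t_asd2 (Q : S4 → ℝ) (hQ : Sm Q)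
    (hpos : ∃ x, 0 < Q x) (hcon : ∃ x y, Q x ≠ Q y) :
    ∃ φ : S4 → S4, Dif φ ∧ ∃ δ : ℝ, 0 < δ ∧ ∀ Q₂ : S4 → ℝ, Sm Q₂ → (∀ x, |Q₂ x - Q x| ≤ δ) →
      IsPaneitzCurvature (fun x => Q₂ (φ x)) :=
  asd2 t_gen t_smo t_dmb t_dpr t_drs t_ltw pts t_mid t_fin Q hQ hpos hcon

end Pool.Agent.DIF.H88
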