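import Pool.Agent.DIF.Stmts

/-!
# GAP: the linear map of the two antipodal half caps is invertible
-/

set_option autoImplicit false

open scoped InnerProductSpace Topology ContDiff Manifold
open MeasureTheory Filter Set

noncomputable section

namespace Pool.Agent.DIF.H88

open Pool.Agent.Helper42_Paneitz Pool.Agent.Helper82_Vir Pool.Agent.FLX Pool.Agent.DIF

theorem cin (v : E5) : Continuous fun y : S4 => ⟪v, (y : E5)⟫_ℝ :=
  continuous_const.inner continuous_subtype_val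

theorem meas_AA (p n : E5) : MeasurableSet (AA p n) := by
  have h1 := (cin n).measurable
  have h2 := (cin p).measurable
  unfold AA
  exact ((measurableSet_lt measurable_const h1).inter (measurableSet_lt measurable_const h2)).union
    ((measurableSet_lt h1 measurable_const).inter (measurableSet_lt h2 measurable_const))

theorem ind_mul (p n : E5) (f : S4 → ℝ) :
    (fun y => ind p n y * f y) = (AA p n).indicator f := by
  classical
  funext y
  unfold ind
  by_cases h : y ∈ AA p n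
  · rw [if_pos h, one_mul, indicator_of_mem h]
  · rw [if_neg h, zero_mul, indicator_of_notMem h]

theorem integrable_ind_mul (p n : E5) {f : S4 → ℝ} (hf : Continuous f) :
    Integrable (fun y => ind p n y * f y) sig := by
  rw [ind_mul]
  exact (integrable_cont hf).indicator (meas_AA p n)

theorem measurable_ind (p n : E5) : Measurable (ind p n) := by
  have h : ind p n = (AA p n).indicator (fun _ => (1 : ℝ)) := by
    have := ind_mul p n (fun _ => (1 : ℝ))
    simpa only [mul_one] using this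
  rw [h]
  exact measurable_const.indicator (meas_AA p n)

theorem integrable_ind (p n : E5) : Integrable (ind p n) sig := by
  have := integrable_ind_mul p n (continuous_const (y := (1 : ℝ)))
  simpa only [mul_one] using this

theorem ind_nonneg (p n : E5) (y : S4) : 0 ≤ ind p n y := by
  unfold ind; split_ifs <;> norm_num

theorem ind_le_one (p n : E5) (y : S4) : ind p n y ≤ 1 := by
  unfold ind; split_ifs <;> norm_num

theorem integrable_smul_coe {g : S4 → ℝ} (hg : Integrable g sig) :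
    Integrable (fun y : S4 => g y • (y : E5)) sig := by
  refine hg.norm.mono (hg.aestronglyMeasurable.smul continuous_subtype_val.aestronglyMeasurable)
    (Eventually.of_forall fun y => ?_)
  rw [norm_smul, S4_norm, mul_one, norm_norm]

theorem inner_int {g : S4 → ℝ} (hg : Integrable g sig) (v : E5) :
    ⟪v, ∫ y : S4, g y • (y : E5) ∂sig⟫_ℝ = ∫ y : S4, g y * ⟪v, (y : E5)⟫_ℝ ∂sig := by
  rw [← integral_inner (integrable_smul_coe hg)]
  congr 1
  funext y
  rw [real_inner_smul_right]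

/-- the antipodal map -/
theorem ind_anti (p n : E5) (y : S4) : ind p n (act (LinearIsometryEquiv.neg ℝ) y) = ind p n y := by
  have h : act (LinearIsometryEquiv.neg ℝ) y ∈ AA p n ↔ y ∈ AA p n := by
    have e : ((act (LinearIsometryEquiv.neg ℝ) y : S4) : E5) = -(y : E5) := rfl
    unfold AA
    simp only [mem_ofPred_eq, e, inner_neg_right]
    constructor
    · rintro (⟨h1, h2⟩ | ⟨h1, h2⟩)
      · exact Or.inr ⟨by linarith, by linarith⟩
      · exact Or.inl ⟨by linarith, by linarith⟩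
    · rintro (⟨h1, h2⟩ | ⟨h1, h2⟩)
      · exact Or.inr ⟨by linarith, by linarith⟩
      · exact Or.inl ⟨by linarith, by linarith⟩
  unfold ind
  by_cases hy : y ∈ AA p n
  · rw [if_pos hy, if_pos (h.2 hy)]
  · rw [if_neg hy, if_neg (fun h' => hy (h.1 h'))]

theorem first_moment (p n : E5) : ∫ y : S4, ind p n y • (y : E5) ∂sig = 0 := by
  set R : E5 ≃ₗᵢ[ℝ] E5 := LinearIsometryEquiv.neg ℝ with hR
  have h1 : ∫ y : S4, ind p n (act R y) • ((act R y : S4) : E5) ∂sig =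
      ∫ y : S4, ind p n y • (y : E5) ∂sig := by
    have h := (measurePreserving_act R).map_eq
    conv_rhs => rw [← h]
    rw [integral_map (continuous_act R).aemeasurable]
    rw [h]
    exact (integrable_smul_coe (integrable_ind p n)).aestronglyMeasurable
  have h2 : ∀ y : S4, ind p n (act R y) • ((act R y : S4) : E5) = -(ind p n y • (y : E5)) := by
    intro y
    rw [ind_anti]
    have e : ((act R y : S4) : E5) = -(y : E5) := rfl
    rw [e, smul_neg]
  simp only [h2] at h1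
  rw [integral_neg] at h1
  set I : E5 := ∫ y : S4, ind p n y • (y : E5) ∂sig with hI
  have h3 : (2 : ℝ) • I = 0 := by
    rw [two_smul]
    nth_rewrite 1 [← h1]
    exact neg_add_cancel I
  exact (smul_eq_zero.1 h3).resolve_left (by norm_num)

theorem sig_AA_pos {p n : E5} (hp : ‖p‖ = 1) (hn : ‖n‖ = 1) (hpn : ⟪p, n⟫_ℝ = 0) :
    0 < sig.real (AA p n) := by
  have hU : IsOpen {y : S4 | 0 < ⟪n, (y : E5)⟫_ℝ ∧ 9 / 10 < ⟪p, (y : E5)⟫_ℝ} :=
    (isOpen_lt continuous_const (cin n)).inter (isOpen_lt continuous_const (cin p))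
  have hne : {y : S4 | 0 < ⟪n, (y : E5)⟫_ℝ ∧ 9 / 10 < ⟪p, (y : E5)⟫_ℝ}.Nonempty := by
    have hpp : ⟪p, p⟫_ℝ = 1 := by rw [real_inner_self_eq_norm_sq, hp]; norm_num
    have hnn : ⟪n, n⟫_ℝ = 1 := by rw [real_inner_self_eq_norm_sq, hn]; norm_num
    have hnp : ⟪n, p⟫_ℝ = 0 := by rw [real_inner_comm]; exact hpn
    refine ⟨⟨(24 / 25 : ℝ) • p + (7 / 25 : ℝ) • n, ?_⟩, ?_, ?_⟩
    · rw [mem_sphere_zero_iff_norm]
      have h : ‖(24 / 25 : ℝ) • p + (7 / 25 : ℝ) • n‖ ^ 2 = 1 := by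
        rw [← real_inner_self_eq_norm_sq]
        simp only [inner_add_left, inner_add_right, real_inner_smul_left, real_inner_smul_right,
          hpp, hnn, hpn, hnp]
        norm_num
      have h0 := norm_nonneg ((24 / 25 : ℝ) • p + (7 / 25 : ℝ) • n)
      nlinarith
    · show 0 < ⟪n, (24 / 25 : ℝ) • p + (7 / 25 : ℝ) • n⟫_ℝ
      rw [inner_add_right, real_inner_smul_right, real_inner_smul_right, hnn, hnp]
      norm_num
    · show 9 / 10 < ⟪p, (24 / 25 : ℝ) • p + (7 / 25 : ℝ) • n⟫_ℝ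
      rw [inner_add_right, real_inner_smul_right, real_inner_smul_right, hpp, hpn]
      norm_num
  have h1 : 0 < sig {y : S4 | 0 < ⟪n, (y : E5)⟫_ℝ ∧ 9 / 10 < ⟪p, (y : E5)⟫_ℝ} :=
    hU.measure_pos sig hne
  have h2 : sig {y : S4 | 0 < ⟪n, (y : E5)⟫_ℝ ∧ 9 / 10 < ⟪p, (y : E5)⟫_ℝ} ≤ sig (AA p n) :=
    measure_mono fun y hy => Or.inl hy
  exact ENNReal.toReal_pos (h1.trans_le h2).ne' (measure_ne_top _ _)

/-- the pointwise inequality -/
theorem pointwise {p b y : E5} (hp : ‖p‖ = 1) (hy : ‖y‖ = 1) (ht : 81 / 100 ≤ ⟪p, y⟫_ℝ ^ 2) :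
    1 / 20 * ‖b‖ ^ 2 ≤
      5 * (⟪b, y⟫_ℝ * ⟪(2 * ⟪p, b⟫_ℝ) • p - b, y⟫_ℝ) - ⟪(2 * ⟪p, b⟫_ℝ) • p - b, b⟫_ℝ := by
  set s : ℝ := ⟪p, b⟫_ℝ with hs
  set t : ℝ := ⟪p, y⟫_ℝ with htt
  have hpp : ⟪p, p⟫_ℝ = 1 := by rw [real_inner_self_eq_norm_sq, hp]; norm_num
  have e1 : ‖b - s • p‖ ^ 2 = ‖b‖ ^ 2 - s ^ 2 := by
    rw [norm_sub_sq_real, norm_smul, hp, mul_one, real_inner_smul_right, real_inner_comm p b,
      Real.norm_eq_abs, sq_abs]
    rw [show ⟪p, b⟫_ℝ = s from rfl]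
    ring
  have e2 : ‖y - t • p‖ ^ 2 = 1 - t ^ 2 := by
    rw [norm_sub_sq_real, norm_smul, hp, mul_one, real_inner_smul_right, real_inner_comm p y,
      Real.norm_eq_abs, sq_abs, hy]
    rw [show ⟪p, y⟫_ℝ = t from rfl]
    ring
  have e3 : ⟪b - s • p, y - t • p⟫_ℝ = ⟪b, y⟫_ℝ - s * t := by
    simp only [inner_sub_left, inner_sub_right, real_inner_smul_left, real_inner_smul_right, hpp]
    rw [real_inner_comm p b, show ⟪p, b⟫_ℝ = s from rfl, show ⟪p, y⟫_ℝ = t from rfl]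
    ring
  have h1 := abs_real_inner_le_norm (b - s • p) (y - t • p)
  have h2 : (⟪b, y⟫_ℝ - s * t) ^ 2 ≤ (‖b‖ ^ 2 - s ^ 2) * (1 - t ^ 2) := by
    rw [e3] at h1
    have h3 : |⟪b, y⟫_ℝ - s * t| ^ 2 ≤ (‖b - s • p‖ * ‖y - t • p‖) ^ 2 :=
      pow_le_pow_left₀ (abs_nonneg _) h1 2
    rw [sq_abs, mul_pow, e1, e2] at h3
    exact h3
  have h3 : 0 ≤ ‖b‖ ^ 2 - s ^ 2 := by rw [← e1]; positivity
  have e4 : ⟪(2 * s) • p - b, y⟫_ℝ = 2 * s * t - ⟪b, y⟫_ℝ := by
    rw [inner_sub_left, real_inner_smul_left]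
  have e5 : ⟪(2 * s) • p - b, b⟫_ℝ = 2 * s ^ 2 - ‖b‖ ^ 2 := by
    rw [inner_sub_left, real_inner_smul_left, real_inner_self_eq_norm_sq,
      show ⟪p, b⟫_ℝ = s from rfl]
    ring
  rw [e4, e5]
  nlinarith [mul_nonneg h3 (show (0 : ℝ) ≤ t ^ 2 - 81 / 100 by linarith), sq_nonneg s,
    mul_nonneg (sq_nonneg s) (show (0 : ℝ) ≤ t ^ 2 - 81 / 100 by linarith)]

theorem gap : GapStmt := by
  intro p n hp hn hpn
  refine ⟨meas_AA p n, first_moment p n, sig.real (AA p n) / 20, ?_, fun b => ?_⟩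
  · have := sig_AA_pos hp hn hpn
    positivity
  have hA := sig_AA_pos hp hn hpn
  set v : E5 := (2 * ⟪p, b⟫_ℝ) • p - b with hv
  have hvn : ‖v‖ = ‖b‖ := by
    have h : ‖v‖ ^ 2 = ‖b‖ ^ 2 := by
      rw [hv, norm_sub_sq_real, norm_smul, hp, mul_one, real_inner_smul_left,
        Real.norm_eq_abs, sq_abs]
      ring
    have h0 := norm_nonneg v
    have h1 := norm_nonneg b
    exact (sq_eq_sq₀ h0 h1).1 h
  have i1 : Integrable (fun y : S4 => ind p n y * ⟪b, (y : E5)⟫_ℝ) sig :=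
    integrable_ind_mul p n (cin b)
  have i2 : Integrable (fun y : S4 => ind p n y * (⟪b, (y : E5)⟫_ℝ * ⟪v, (y : E5)⟫_ℝ)) sig :=
    integrable_ind_mul p n ((cin b).mul (cin v))
  have e1 : ⟪v, Mg (ind p n) b⟫_ℝ = ∫ y : S4, ind p n y *
      (5 * (⟪b, (y : E5)⟫_ℝ * ⟪v, (y : E5)⟫_ℝ) - ⟪v, b⟫_ℝ) ∂sig := by
    unfold Mg
    rw [inner_sub_right, real_inner_smul_right, real_inner_smul_right, inner_int i1]
    have e2 : ∀ y : S4, ind p n y * (5 * (⟪b, (y : E5)⟫_ℝ * ⟪v, (y : E5)⟫_ℝ) - ⟪v, b⟫_ℝ) =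
        5 * (ind p n y * (⟪b, (y : E5)⟫_ℝ * ⟪v, (y : E5)⟫_ℝ)) - ind p n y * ⟪v, b⟫_ℝ := by
      intro y; ring
    simp only [e2]
    rw [integral_sub (i2.const_mul 5) ((integrable_ind p n).mul_const _), integral_const_mul,
      integral_mul_const]
    congr 2
    refine integral_congr_ae (Eventually.of_forall fun y => ?_)
    show ind p n y * ⟪b, (y : E5)⟫_ℝ * ⟪v, (y : E5)⟫_ℝ =
      ind p n y * (⟪b, (y : E5)⟫_ℝ * ⟪v, (y : E5)⟫_ℝ)
    ring
  have e3 : ∫ y : S4, ind p n y * (1 / 20 * ‖b‖ ^ 2) ∂sig =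
      sig.real (AA p n) / 20 * ‖b‖ ^ 2 := by
    rw [integral_mul_const]
    have : ∫ y : S4, ind p n y ∂sig = sig.real (AA p n) := by
      have h := ind_mul p n (fun _ => (1 : ℝ))
      simp only [mul_one] at h
      rw [h, integral_indicator (meas_AA p n), integral_const, smul_eq_mul, mul_one]
      simp [Measure.real]
    rw [this]; ring
  have h1 : sig.real (AA p n) / 20 * ‖b‖ ^ 2 ≤ ⟪v, Mg (ind p n) b⟫_ℝ := by
    rw [← e3, e1]
    refine integral_mono ((integrable_ind p n).mul_const _) ?_ fun y => ?_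
    · exact integrable_ind_mul p n ((continuous_const.mul ((cin b).mul (cin v))).sub
        continuous_const)
    · show ind p n y * (1 / 20 * ‖b‖ ^ 2) ≤
        ind p n y * (5 * (⟪b, (y : E5)⟫_ℝ * ⟪v, (y : E5)⟫_ℝ) - ⟪v, b⟫_ℝ)
      by_cases hy : y ∈ AA p n
      · have ht : 81 / 100 ≤ ⟪p, (y : E5)⟫_ℝ ^ 2 := by
          rcases hy with ⟨-, h⟩ | ⟨-, h⟩ <;> nlinarith
        exact mul_le_mul_of_nonneg_left (pointwise hp (S4_norm y) ht) (ind_nonneg p n y)
      · have : ind p n y = 0 := if_neg hy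
        rw [this]; simp
  have h2 := real_inner_le_norm v (Mg (ind p n) b)
  rw [hvn] at h2
  rcases eq_or_lt_of_le (norm_nonneg b) with h0 | h0
  · rw [← h0, mul_zero]; exact norm_nonneg _
  · have h3 : sig.real (AA p n) / 20 * ‖b‖ ^ 2 ≤ ‖b‖ * ‖Mg (ind p n) b‖ := h1.trans h2
    have h4 : ‖b‖ * (sig.real (AA p n) / 20 * ‖b‖) ≤ ‖b‖ * ‖Mg (ind p n) b‖ := by
      nlinarith
    exact le_of_mul_le_mul_left h4 h0

end Pool.Agent.DIF.H88
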